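import Pool.Agent.H17.HKS4

set_option autoImplicit false

namespace Pool.Agent.Results.MP_6957f6_co.Q2False

open Pool.Agent.H17.HKS

theorem result : ∃ (σ μ : Fin 4 → List (Fin 4)) (y u : ℕ → Fin 4),
    Prim σ ∧ IsImage σ y y ∧ IsImage μ y u ∧ Palindromic u ∧
      ∀ (B : Type) [Fintype B] (φ : B → List B) (ψ : B → List (Fin 4)) (v : ℕ → B) (z : ℕ → Fin 4),
        Prim φ → ClassQ' φ → ClassQ' ψ → IsImage φ v v → IsImage ψ v z → lang z ≠ lang u :=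
  ⟨sg, mu, zz, ww, sg_prim, sg_fix, mu_img, ww_pal,
    fun _ _ φ ψ v z h1 h2 h3 h4 h5 h6 => no_classQ φ ψ v z h1 h2 h3 h4 h5 h6⟩

end Pool.Agent.Results.MP_6957f6_co.Q2False
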